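import Pool.Agent.Q180.Walk.Basic

/-!
# A greedy walk whose sign sequence has period 20

The rotation number `α` satisfies `e^{2πiα} = (341 + 420 i)/541`, and the starting point is an
explicit rational point; the sign sequence is purely periodic with least period `20 = 4 * 5`.
-/

namespace Pool.Agent.Results.MP_fc1ccb_an.PeriodTwenty

open Complex Q180.Walk

/-- Common denominator of the twenty points of the cycle. -/
def D : ℤ := 156793887013160242483116600

/-- Numerators of the real parts of the twenty points of the cycle. -/
def X (j : ℕ) : ℤ := (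
  [73496891216221224029959920, (-143448391732990128753176340), 1291288420947105102096600,
   (-110547078955589183983383660), 114973222665735908564153280, (-137709376343245276054980),
   140476482604026088832961960, (-78396943506580121241558300), 16317404409134153650154640,
   (-156656177636816997207061620), 41820664347424333918963320, (-46246808057571058499732940),
   155502598592213137381020000, (-13345495280170113729940260), 83296995796939018453156680,
   (-137271246331835289754451580), (-721730829664219455794640), 78396943506580121241558300,
   (-156072156183496023027321960), (-19522640681324952728665020)] : List ℤ).getD j 0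

/-- Numerators of the imaginary parts of the twenty points of the cycle. -/
def Y (j : ℕ) : ℤ := (
  [(-117145962763789177054623743), (-9171968701918154575417543), (-16141865702450163543054143),
   110548456939360465678090457, 33777013737785719457192257, 53757191701484566692915257,
   (-87734551270345474278524543), (-42632480834291057663423143), (-87734551270345474278524543),
   53757191701484566692915257, 33777013737785719457192257, 110548456939360465678090457,
   (-16141865702450163543054143), (-9171968701918154575417543), (-117145962763789177054623743),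
   (-16780182979000360966808743), (-25732997194076900620556543), (-137384949427446493129547143),
   (-25732997194076900620556543), (-16780182979000360966808743)] : List ℤ).getD j 0

/-- Signs of the real parts of the twenty points of the cycle. -/
def S (j : ℕ) : ℤ := (
  [1, (-1), 1, (-1), 1, (-1), 1, (-1), 1, (-1), 1, (-1), 1, (-1), 1, (-1), (-1), 1, (-1), (-1)] : List ℤ).getD j 0

/-- The (rotating) points of the cycle. -/
noncomputable def u (n : ℕ) : ℂ := ((X (n % 20) : ℂ) + (Y (n % 20) : ℂ) * I) / (D : ℂ)

/-- The signs, extended periodically. -/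
def s (n : ℕ) : ℤ := S (n % 20)

theorem table : ∀ j < 20, 541 * X ((j + 1) % 20) = 341 * (X j - S j * D) + 420 * Y j ∧
    541 * Y ((j + 1) % 20) = 341 * Y j - 420 * (X j - S j * D) ∧ 0 < S j * X j ∧
    (S j = 1 ∨ S j = -1) := by
  decide

theorem aper : ∀ r < 20, 1 ≤ r → ∃ j < 20, S ((j + r) % 20) ≠ S j := by
  decide

theorem D_pos : (0 : ℝ) < (D : ℝ) := by
  have : (0 : ℤ) < D := by decide
  exact_mod_cast this

/-- The rotation number. -/
noncomputable def al : ℝ := Real.arccos (341 / 541) / (2 * Real.pi)

theorem two_pi_al : 2 * Real.pi * al = Real.arccos (341 / 541) := by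
  unfold al; field_simp

theorem al_pos : 0 < al := by
  unfold al
  have : 0 < Real.arccos (341 / 541) := Real.arccos_pos.2 (by norm_num)
  positivity

theorem al_irr : Irrational al := by
  rintro ⟨q, hq⟩
  have h1 : Real.cos (2 * Real.pi * al) = 341 / 541 := by
    rw [two_pi_al, Real.cos_arccos (by norm_num) (by norm_num)]
  have h2 := niven (θ := 2 * Real.pi * al) ⟨2 * q, by rw [← hq]; push_cast; ring⟩
    ⟨341 / 541, by rw [h1]; norm_num⟩
  rw [h1] at h2
  simp only [Set.mem_insert_iff, Set.mem_singleton_iff] at h2
  norm_num at h2

theorem rot : exp (-(2 * Real.pi * I * al)) = (341 - 420 * I) / 541 := by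
  have e : -(2 * Real.pi * I * al) = ((-(Real.arccos (341 / 541)) : ℝ) : ℂ) * I := by
    rw [← two_pi_al]; push_cast; ring
  rw [e, exp_mul_I, ← ofReal_cos, ← ofReal_sin, Real.cos_neg, Real.sin_neg,
    Real.cos_arccos (by norm_num) (by norm_num), Real.sin_arccos]
  have h3 : √(1 - (341 / 541 : ℝ) ^ 2) = 420 / 541 := by
    rw [show (1 - (341 / 541 : ℝ) ^ 2) = (420 / 541) ^ 2 by norm_num]
    exact Real.sqrt_sq (by norm_num)
  rw [h3]
  push_cast
  ring

/-- There are an irrational `α > 0` and a starting point `w` such that the greedy walk is defined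
for all times and its sign sequence is eventually periodic with (least) period `20`, a multiple
of `4`. -/
theorem result : ∃ α : ℝ, 0 < α ∧ Irrational α ∧ ∃ (w : ℂ) (Z : ℕ → ℂ) (ε : ℕ → ℤ),
    IsGreedyWalk α w Z ε ∧ IsLeast (evPeriods ε) 20 := by
  refine ⟨al, al_pos, al_irr, u 0, _, _, isGreedyWalk_of_rotating (s := s) ?_ ?_ ?_, ?_⟩
  · intro n
    exact (table (n % 20) (Nat.mod_lt _ (by norm_num))).2.2.2
  · intro n
    obtain ⟨h1, h2, -, -⟩ := table (n % 20) (Nat.mod_lt _ (by norm_num))
    have hm : (n + 1) % 20 = (n % 20 + 1) % 20 := by omega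
    have hD : (D : ℂ) ≠ 0 := by
      have := D_pos.ne'
      exact_mod_cast this
    have h1' : (541 : ℂ) * X ((n + 1) % 20)
        = 341 * (X (n % 20) - S (n % 20) * D) + 420 * Y (n % 20) := by
      rw [hm]; exact_mod_cast h1
    have h2' : (541 : ℂ) * Y ((n + 1) % 20)
        = 341 * Y (n % 20) - 420 * (X (n % 20) - S (n % 20) * D) := by
      rw [hm]; exact_mod_cast h2
    rw [rot]
    simp only [u, s]
    field_simp
    linear_combination h1' + I * h2' + 420 * Y (n % 20) * Complex.I_sq
  · intro n
    obtain ⟨-, -, h3, -⟩ := table (n % 20) (Nat.mod_lt _ (by norm_num))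
    have hre : (u n).re = (X (n % 20) : ℝ) / D := by
      have : u n = (((X (n % 20) : ℝ) / D : ℝ) : ℂ) + (((Y (n % 20) : ℝ) / D : ℝ) : ℂ) * I := by
        simp only [u]; push_cast; ring
      rw [this]; simp
    rw [hre, ← mul_div_assoc]
    have : (0 : ℝ) < (S (n % 20) : ℝ) * X (n % 20) := by exact_mod_cast h3
    exact div_pos this D_pos
  · rw [evPeriods_neg]
    refine isLeast_evPeriods (by norm_num) (fun n => by simp [s]) ?_
    intro r hr hr20
    obtain ⟨j, hj, hne⟩ := aper r hr20 hr
    refine ⟨j, ?_⟩
    simp only [s]
    rwa [Nat.mod_eq_of_lt hj]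

end Pool.Agent.Results.MP_fc1ccb_an.PeriodTwenty
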